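import Mathlib

/-!
# A real sequence satisfying the chi inequality with a larger reciprocal sum

The Levine-O'Sullivan sequence `chi` is changed in its first four terms: the sequence
`2/3, 8/3, 14/3, 20/3, chi 5, chi 6, ...` still satisfies the chi inequality, and its reciprocal
sum is larger than the one of `chi`.
-/

namespace Pool.Agent.Results.MP_22eee4_an.RealCounterexample

/-- The chi inequality `(j+1) a_j + a_i ≥ (j+1) i` for all `i, j ≥ 1` (the value `a 0` is not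
used). -/
def ChiIneq (a : ℕ → ℝ) : Prop :=
  ∀ i j : ℕ, 1 ≤ i → 1 ≤ j → ((j : ℝ) + 1) * i ≤ ((j : ℝ) + 1) * a j + a i

/-- The greedy sequence of Levine and O'Sullivan: `chi 1 = 1` and
`chi i = max_{1 ≤ j ≤ i-1} (j+1) (i - chi j)` for `i > 1` (`chi 0 = 0` is a dummy value). -/
def chi : ℕ → ℤ
  | 0 => 0
  | 1 => 1
  | n + 2 => (Finset.univ : Finset (Fin (n + 1))).sup' Finset.univ_nonempty
      (fun j => ((j : ℕ) + 2 : ℤ) * ((n + 2 : ℤ) - chi ((j : ℕ) + 1)))
  decreasing_by omega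

lemma chi_zero : chi 0 = 0 := by rw [chi]
lemma chi_one : chi 1 = 1 := by rw [chi]

lemma chi_succ (n : ℕ) : chi (n + 2) =
    (Finset.univ : Finset (Fin (n + 1))).sup' Finset.univ_nonempty
      (fun j => ((j : ℕ) + 2 : ℤ) * ((n + 2 : ℤ) - chi ((j : ℕ) + 1))) := by
  rw [chi]

/-- the greedy recursion in the form of the problem -/
lemma chi_isGreatest (i : ℕ) (hi : 1 < i) :
    IsGreatest {v : ℤ | ∃ j : ℕ, 1 ≤ j ∧ j ≤ i - 1 ∧ v = ((j : ℤ) + 1) * ((i : ℤ) - chi j)}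
      (chi i) := by
  obtain ⟨n, rfl⟩ : ∃ n, i = n + 2 := ⟨i - 2, by omega⟩
  constructor
  · obtain ⟨j, -, hj⟩ := Finset.exists_mem_eq_sup' (Finset.univ_nonempty : (Finset.univ : Finset (Fin (n + 1))).Nonempty)
      (fun j : Fin (n + 1) => ((j : ℕ) + 2 : ℤ) * ((n + 2 : ℤ) - chi ((j : ℕ) + 1)))
    refine ⟨j + 1, by omega, by omega, ?_⟩
    rw [chi_succ, hj]
    push_cast
    ring
  · rintro v ⟨j, h1, h2, rfl⟩
    rw [chi_succ]
    obtain ⟨k, rfl⟩ : ∃ k, j = k + 1 := ⟨j - 1, by omega⟩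
    have hk : k < n + 1 := by omega
    refine le_trans (le_of_eq ?_) (Finset.le_sup' (fun j : Fin (n + 1) =>
      ((j : ℕ) + 2 : ℤ) * ((n + 2 : ℤ) - chi ((j : ℕ) + 1))) (Finset.mem_univ ⟨k, hk⟩))
    push_cast
    ring

lemma chi_ge_mul {i j : ℕ} (hj : 1 ≤ j) (hij : j < i) :
    ((j : ℤ) + 1) * ((i : ℤ) - chi j) ≤ chi i :=
  (chi_isGreatest i (by omega)).2 ⟨j, hj, by omega, rfl⟩

/-- `i ≤ chi i` -/
lemma le_chi {i : ℕ} : (i : ℤ) ≤ chi i := by
  rcases i with _ | _ | n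
  · rw [chi_zero]; simp
  · rw [chi_one]; simp
  · have := chi_ge_mul (i := n + 2) (j := 1) le_rfl (by omega)
    rw [chi_one] at this
    push_cast at this ⊢
    nlinarith

/-- `4 chi i ≤ (i+1)²` -/
lemma chi_le {i : ℕ} (hi : 1 ≤ i) : 4 * chi i ≤ ((i : ℤ) + 1) ^ 2 := by
  rcases Nat.lt_or_ge 1 i with h | h
  · obtain ⟨j, h1, h2, hj⟩ := (chi_isGreatest i h).1
    rw [hj]
    have h3 : (j : ℤ) ≤ chi j := le_chi
    have h4 : ((j : ℤ) + 1) * ((i : ℤ) - chi j) ≤ ((j : ℤ) + 1) * ((i : ℤ) - j) := by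
      apply mul_le_mul_of_nonneg_left <;> omega
    nlinarith [sq_nonneg ((i : ℤ) - j - (j + 1))]
  · obtain rfl : i = 1 := by omega
    rw [chi_one]; norm_num

/-- first values -/
lemma chi_two : chi 2 = 2 := by
  have h1 := chi_ge_mul (i := 2) (j := 1) le_rfl (by omega)
  obtain ⟨j, h2, h3, hj⟩ := (chi_isGreatest 2 (by omega)).1
  obtain rfl : j = 1 := by omega
  rw [hj, chi_one]; norm_num

lemma chi_three : chi 3 = 4 := by
  have h1 := chi_ge_mul (i := 3) (j := 1) le_rfl (by omega)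
  obtain ⟨j, h2, h3, hj⟩ := (chi_isGreatest 3 (by omega)).1
  rw [chi_one] at h1
  interval_cases j
  · rw [hj, chi_one]; norm_num
  · rw [chi_two] at hj; norm_num at h1 hj; omega

lemma chi_four : chi 4 = 6 := by
  have h1 := chi_ge_mul (i := 4) (j := 1) le_rfl (by omega)
  obtain ⟨j, h2, h3, hj⟩ := (chi_isGreatest 4 (by omega)).1
  rw [chi_one] at h1
  interval_cases j
  · rw [hj, chi_one]; norm_num
  · rw [chi_two] at hj; norm_num at h1 hj; omega
  · rw [chi_three] at hj; norm_num at h1 hj; omega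

/-- `chi` satisfies the chi inequality. -/
lemma chi_ineq (i j : ℕ) (hi : 1 ≤ i) (hj : 1 ≤ j) :
    ((j : ℤ) + 1) * i ≤ ((j : ℤ) + 1) * chi j + chi i := by
  rcases Nat.lt_or_ge j i with h | h
  · have := chi_ge_mul hj h
    linarith
  · have h1 : (j : ℤ) ≤ chi j := le_chi
    have h2 : (i : ℤ) ≤ chi i := le_chi
    have h3 : (i : ℤ) ≤ j := by exact_mod_cast h
    have h4 : ((j : ℤ) + 1) * i ≤ ((j : ℤ) + 1) * chi j :=
      mul_le_mul_of_nonneg_left (by linarith) (by positivity)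
    have h5 : (0 : ℤ) ≤ i := by positivity
    linarith

/-- `3 ⌊√i⌋ i ≤ 4 chi i` -/
lemma chi_lower {i : ℕ} (hi : 4 ≤ i) : 3 * ((Nat.sqrt i : ℕ) : ℤ) * i ≤ 4 * chi i := by
  set s := Nat.sqrt i with hs
  have hs2 : 2 ≤ s := by
    rw [hs, Nat.le_sqrt]; omega
  have hss : s * s ≤ i := Nat.sqrt_le i
  have h1 := chi_ge_mul (i := i) (j := s - 1) (by omega) (by nlinarith [Nat.sub_le s 1])
  have h2 := chi_le (i := s - 1) (by omega)
  have h3 : ((s - 1 : ℕ) : ℤ) + 1 = s := by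
    rw [Nat.cast_sub (by omega)]; push_cast; ring
  rw [h3] at h1 h2
  have h4 : ((s : ℕ) : ℤ) * s ≤ i := by exact_mod_cast hss
  have h5 : (0 : ℤ) ≤ s := by positivity
  nlinarith

lemma summable_chi : Summable (fun k : ℕ => 1 / ((chi (k + 1) : ℤ) : ℝ)) := by
  have h0 : Summable (fun k : ℕ => 1 / ((k : ℝ) ^ (3 / 2 : ℝ))) :=
    Real.summable_one_div_nat_rpow.2 (by norm_num)
  have h1 : Summable (fun k : ℕ => (8 / 3 : ℝ) * (1 / (((k + 4 : ℕ) : ℝ) ^ (3 / 2 : ℝ)))) :=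
    ((summable_nat_add_iff 4).2 h0).mul_left _
  have h2 : Summable (fun k : ℕ => 1 / ((chi (k + 4) : ℤ) : ℝ)) := by
    refine Summable.of_nonneg_of_le (fun k => ?_) (fun k => ?_) h1
    · have : (0 : ℤ) ≤ chi (k + 4) := le_trans (by positivity) le_chi
      have : (0 : ℝ) ≤ ((chi (k + 4) : ℤ) : ℝ) := by exact_mod_cast this
      positivity
    · have hl := chi_lower (i := k + 4) (by omega)
      set i := k + 4 with hi
      have hi4 : 4 ≤ i := by omega
      set s := Nat.sqrt i with hs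
      have hs2 : 2 ≤ s := by rw [hs, Nat.le_sqrt]; omega
      have hlt : i < (s + 1) * (s + 1) := Nat.lt_succ_sqrt i
      have hlt' : (i : ℝ) < ((s : ℝ) + 1) * (s + 1) := by exact_mod_cast hlt
      have hsr : (2 : ℝ) ≤ s := by exact_mod_cast hs2
      have hipos : (0 : ℝ) < i := by exact_mod_cast (by omega : 0 < i)
      have hsq : Real.sqrt i ≤ 2 * s := by
        rw [Real.sqrt_le_left (by positivity)]
        nlinarith
      have hpow : (i : ℝ) ^ (3 / 2 : ℝ) = i * Real.sqrt i := by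
        rw [Real.sqrt_eq_rpow, ← Real.rpow_one_add' hipos.le (by norm_num)]
        norm_num
      have hlr : 3 * (s : ℝ) * i ≤ 4 * ((chi i : ℤ) : ℝ) := by exact_mod_cast hl
      rw [hpow]
      have hsqpos : 0 < Real.sqrt i := Real.sqrt_pos.2 hipos
      have hc : 3 / 8 * (i * Real.sqrt i) ≤ ((chi i : ℤ) : ℝ) := by nlinarith
      calc 1 / ((chi i : ℤ) : ℝ) ≤ 1 / (3 / 8 * (i * Real.sqrt i)) :=
            one_div_le_one_div_of_le (by positivity) hc
        _ = 8 / 3 * (1 / (i * Real.sqrt i)) := by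
            field_simp
  have h3 : Summable (fun k : ℕ => 1 / ((chi (k + 3 + 1) : ℤ) : ℝ)) := h2
  exact (summable_nat_add_iff (f := fun k : ℕ => 1 / ((chi (k + 1) : ℤ) : ℝ)) 3).1 h3

/-- the counterexample: `2/3, 8/3, 14/3, 20/3, chi 5, chi 6, ...` -/
noncomputable def ex (k : ℕ) : ℝ :=
  if k ≤ 4 then 2 * (k : ℝ) - 4 / 3 else ((chi k : ℤ) : ℝ)

lemma ex_ge {k : ℕ} (_hk : 1 ≤ k) : 2 * (k : ℝ) - 4 / 3 ≤ ex k := by
  unfold ex
  split_ifs with h
  · exact le_rfl
  · have h1 := chi_ge_mul (i := k) (j := 2) (by omega) (by omega)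
    rw [chi_two] at h1
    have h2 : ((2 : ℝ) + 1) * ((k : ℝ) - 2) ≤ ((chi k : ℤ) : ℝ) := by exact_mod_cast h1
    have h3 : (5 : ℝ) ≤ k := by exact_mod_cast (by omega : 5 ≤ k)
    linarith

lemma chi_le_ex {k : ℕ} (hk : 2 ≤ k) : ((chi k : ℤ) : ℝ) ≤ ex k := by
  unfold ex
  split_ifs with h
  · interval_cases k
    · rw [chi_two]; norm_num
    · rw [chi_three]; norm_num
    · rw [chi_four]; norm_num
  · exact le_rfl

lemma ex_chiIneq : ChiIneq ex := by
  intro i j hi hj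
  rcases Nat.lt_or_ge j 2 with h | h
  · obtain rfl : j = 1 := by omega
    have h1 := ex_ge hi
    have h2 : ex 1 = 2 / 3 := by unfold ex; norm_num
    rw [h2]
    push_cast
    linarith
  · have h1 := chi_le_ex h
    rcases Nat.lt_or_ge i 2 with h' | h'
    · obtain rfl : i = 1 := by omega
      have h2 : ex 1 = 2 / 3 := by unfold ex; norm_num
      have h3 : (j : ℤ) ≤ chi j := le_chi
      have h4 : (j : ℝ) ≤ ((chi j : ℤ) : ℝ) := by exact_mod_cast h3
      have h5 : (2 : ℝ) ≤ j := by exact_mod_cast h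
      rw [h2]
      push_cast
      nlinarith
    · have h2 := chi_le_ex h'
      have h3 := chi_ineq i j hi hj
      have h4 : ((j : ℝ) + 1) * i ≤ ((j : ℝ) + 1) * ((chi j : ℤ) : ℝ) + ((chi i : ℤ) : ℝ) := by
        exact_mod_cast h3
      have h5 : (0 : ℝ) ≤ j := by positivity
      nlinarith

/-- **The real extension of the Levine-O'Sullivan conjecture is false.** `chi` is the greedy
sequence of the problem; there is a real sequence which satisfies the chi inequality, whose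
reciprocal sum is finite and larger than the (finite) reciprocal sum of `chi` by at least
`1/2 - 1/8 - 1/28 - 1/60 = 271/840`. -/
theorem result :
    chi 1 = 1 ∧
    (∀ i : ℕ, 1 < i →
      IsGreatest {v : ℤ | ∃ j : ℕ, 1 ≤ j ∧ j ≤ i - 1 ∧ v = ((j : ℤ) + 1) * ((i : ℤ) - chi j)}
        (chi i)) ∧
    Summable (fun k : ℕ => 1 / ((chi (k + 1) : ℤ) : ℝ)) ∧
    ∃ a : ℕ → ℝ, ChiIneq a ∧ Summable (fun k : ℕ => 1 / a (k + 1)) ∧
      ∑' k : ℕ, 1 / ((chi (k + 1) : ℤ) : ℝ) + 271 / 840 ≤ ∑' k : ℕ, 1 / a (k + 1) := by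
  refine ⟨chi_one, chi_isGreatest, summable_chi, ex, ex_chiIneq, ?_⟩
  have htail : ∀ k : ℕ, ex (k + 4 + 1) = ((chi (k + 4 + 1) : ℤ) : ℝ) := by
    intro k
    unfold ex
    rw [if_neg (by omega)]
  have hs4 : Summable (fun k : ℕ => 1 / ((chi (k + 4 + 1) : ℤ) : ℝ)) :=
    (summable_nat_add_iff (f := fun k : ℕ => 1 / ((chi (k + 1) : ℤ) : ℝ)) 4).2 summable_chi
  have hse4 : Summable (fun k : ℕ => 1 / ex (k + 4 + 1)) := by
    simp_rw [htail]; exact hs4
  have hse : Summable (fun k : ℕ => 1 / ex (k + 1)) :=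
    (summable_nat_add_iff (f := fun k : ℕ => 1 / ex (k + 1)) 4).1 hse4
  refine ⟨hse, ?_⟩
  rw [← summable_chi.sum_add_tsum_nat_add 4, ← hse.sum_add_tsum_nat_add 4]
  simp_rw [htail]
  have e1 : ex 1 = 2 / 3 := by unfold ex; norm_num
  have e2 : ex 2 = 8 / 3 := by unfold ex; norm_num
  have e3 : ex 3 = 14 / 3 := by unfold ex; norm_num
  have e4 : ex 4 = 20 / 3 := by unfold ex; norm_num
  simp only [Finset.sum_range_succ, Finset.sum_range_zero, zero_add, Nat.reduceAdd, e1, e2, e3, e4,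
    chi_one, chi_two, chi_three, chi_four]
  norm_num
  linarith

end Pool.Agent.Results.MP_22eee4_an.RealCounterexample
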